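import Pool.Agent.H.MP_32323c_lc.E

namespace Pool.Agent.Results.MP_32323c_lc.NotFinitelyBased

open Pool.Agent.H.MP_32323c_lc

/-- Over every nonempty set of actions, every sound and ground-complete set of equations for
bisimilarity over BPA* with the empty process is infinite. -/
theorem result (A : Type) [Nonempty A] (E : Set (Open A × Open A)) (hS : Sound E)
    (hC : GroundComplete E) : E.Infinite :=
  main (Classical.arbitrary A) E hS hC

end Pool.Agent.Results.MP_32323c_lc.NotFinitelyBased
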